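import Pool.Agent.Helper68.SK.Goals

/-!
PROJECT SK (MP_2b0227_gt, target T2), packet FIN: finiteness and domination.
-/

namespace Pool.Agent.Helper37.SK

open Finset Pool.Agent.Helper68.SK

section

variable {V E P : Type} [Fintype V] [DecidableEq V] [Fintype E] [DecidableEq E] [Fintype P]
  [DecidableEq P]

theorem mass_add (g : E → V × V) (z y : V ⊕ E → ℤ) (U : Finset V) :
    mass g (z + y) U = mass g z U + mass g y U := by
  unfold mass
  rw [← Finset.sum_add_distrib]
  refine Finset.sum_congr rfl fun a _ => ?_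
  split_ifs <;> simp

theorem mass_sub (g : E → V × V) (z y : V ⊕ E → ℤ) (U : Finset V) :
    mass g (z - y) U = mass g z U - mass g y U := by
  unfold mass
  rw [← Finset.sum_sub_distrib]
  refine Finset.sum_congr rfl fun a _ => ?_
  split_ifs <;> simp

theorem mass_delta (g : E → V × V) (a : V ⊕ E) (U : Finset V) :
    mass g (δ a) U = if hit g U a then 1 else 0 := by
  unfold mass δ
  rw [Finset.sum_eq_single a]
  · simp
  · intro b _ hb
    simp [Pi.single_apply, hb]
  · intro h
    exact absurd (Finset.mem_univ a) h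

theorem sum_delta (a : V ⊕ E) : ∑ b, (δ a : V ⊕ E → ℤ) b = 1 := by
  unfold δ
  simp

theorem dom (g : E → V × V) (z : V ⊕ E → ℤ) (e : E) (u : V) (hu : ∀ U : Finset V, u ∈ U →
    hit g U (.inr e)) (hz : z ∈ JJ g) : z - δ (.inr e) + δ (.inl u) ∈ JJ g := by
  obtain ⟨h1, h2⟩ := hz
  refine ⟨?_, fun U hU hU' => ?_⟩
  · have h3 : ∀ a, (z - δ (Sum.inr e) + δ (Sum.inl u) : V ⊕ E → ℤ) a = z a - (δ (Sum.inr e) : V ⊕ E → ℤ) a +
        (δ (Sum.inl u) : V ⊕ E → ℤ) a := fun a => rfl
    rw [Finset.sum_congr rfl fun a _ => h3 a, Finset.sum_add_distrib, Finset.sum_sub_distrib, h1,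
      sum_delta, sum_delta]
    norm_num
  · rw [mass_add, mass_sub, mass_delta, mass_delta]
    have h3 := h2 U hU hU'
    by_cases h4 : u ∈ U
    · have h5 : hit g U (.inl u) := h4
      rw [if_pos (hu U h4), if_pos h5]
      linarith
    · have h5 : ¬ hit g U (.inl u) := h4
      rw [if_neg h5]
      split_ifs <;> linarith

theorem push_edge (c : V → P) (z : V ⊕ E → ℤ) (e : E) : push (col E c) z (.inr e) = z (.inr e) := by
  unfold push col
  rw [Fintype.sum_sum_type]
  simp

theorem bound (g : E → V × V) (z : V ⊕ E → ℤ) (hz : z ∈ JJ g) (v : V) :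
    z (.inl v) ≤ 1 + ∑ e, |z (.inr e)| := by
  obtain ⟨h1, h2⟩ := hz
  have key : ∀ U : Finset V, -∑ e, |z (.inr e)| ≤ ∑ e, if hit g U (.inr e) then z (.inr e) else 0 := by
    intro U
    rw [← Finset.sum_neg_distrib]
    refine Finset.sum_le_sum fun e _ => ?_
    split_ifs
    · exact neg_abs_le _
    · simp
  by_cases hv : ({v} : Finset V) = univ
  · rw [Fintype.sum_sum_type, ← hv, Finset.sum_singleton] at h1
    have h3 : -∑ e, |z (.inr e)| ≤ ∑ e, z (.inr e) := by
      rw [← Finset.sum_neg_distrib]
      exact Finset.sum_le_sum fun e _ => neg_abs_le _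
    linarith
  · have h3 := h2 {v} (Finset.singleton_nonempty v) hv
    unfold mass at h3
    rw [Fintype.sum_sum_type] at h3
    have h4 : ∑ v' : V, (if hit (E := E) g {v} (.inl v') then z (.inl v') else 0) = z (.inl v) := by
      have : ∀ v' : V, (if hit (E := E) g {v} (.inl v') then z (.inl v') else 0) =
          if v' = v then z (.inl v') else 0 := by
        intro v'
        have : hit (E := E) g {v} (.inl v') ↔ v' = v := by
          show v' ∈ ({v} : Finset V) ↔ v' = v
          exact Finset.mem_singleton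
        simp only [this]
      rw [Finset.sum_congr rfl fun v' _ => this v']
      simp
    rw [h4] at h3
    have := key {v}
    linarith

theorem fin (g : E → V × V) (c : V → P) (w : P ⊕ E → ℤ) :
    Set.Finite {z : V ⊕ E → ℤ | z ∈ JJ g ∧ push (col E c) z = w} := by
  set B : ℤ := 1 + ∑ e, |w (.inr e)| with hB
  have hB0 : 0 ≤ B := by
    have : 0 ≤ ∑ e : E, |w (.inr e)| := Finset.sum_nonneg fun e _ => abs_nonneg _
    linarith
  refine (Set.finite_Icc (fun _ : V ⊕ E => -(B * (Fintype.card V + 1)))
    (fun _ : V ⊕ E => B * (Fintype.card V + 1))).subset ?_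
  rintro z ⟨hz, hw⟩
  have he : ∀ e, z (.inr e) = w (.inr e) := by
    intro e
    rw [← hw, push_edge]
  have hub : ∀ v, z (.inl v) ≤ B := by
    intro v
    have := bound g z hz v
    rw [Finset.sum_congr rfl fun e _ => by rw [he e]] at this
    exact this
  have hc : (0 : ℤ) ≤ Fintype.card V := by positivity
  have hBc : B ≤ B * (Fintype.card V + 1) := by nlinarith
  have hlow : ∀ v, -(B * (Fintype.card V + 1)) ≤ z (.inl v) := by
    intro v
    have h1 := hz.1
    rw [Fintype.sum_sum_type, ← Finset.add_sum_erase _ _ (Finset.mem_univ v)] at h1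
    have h2 : ∑ x ∈ univ.erase v, z (.inl x) ≤ ∑ x ∈ univ.erase v, B :=
      Finset.sum_le_sum fun x _ => hub x
    have h3 : ∑ x ∈ univ.erase v, B ≤ Fintype.card V * B := by
      rw [Finset.sum_const, nsmul_eq_mul]
      refine mul_le_mul_of_nonneg_right ?_ hB0
      exact_mod_cast Finset.card_le_univ _
    have h4 : ∑ e, z (.inr e) ≤ ∑ e : E, |w (.inr e)| := by
      refine Finset.sum_le_sum fun e _ => ?_
      rw [he e]
      exact le_abs_self _
    nlinarith
  have hedge : ∀ e, |w (.inr e)| ≤ B := by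
    intro e
    have := Finset.single_le_sum (f := fun e : E => |w (.inr e)|) (fun e _ => abs_nonneg _)
      (Finset.mem_univ e)
    linarith
  constructor
  · rintro (v | e)
    · exact hlow v
    · show -(B * (Fintype.card V + 1)) ≤ z (.inr e)
      rw [he e]
      have := neg_abs_le (w (.inr e))
      linarith [hedge e]
  · rintro (v | e)
    · show z (.inl v) ≤ B * (Fintype.card V + 1)
      linarith [hub v]
    · show z (.inr e) ≤ B * (Fintype.card V + 1)
      rw [he e]
      have := le_abs_self (w (.inr e))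
      linarith [hedge e]

end

theorem goalFin : GoalFin := by
  intro V E P _ _ _ _ _ _ g c
  refine ⟨fin g c, fun w => Nat.cast_nonneg _, fun w => ?_, fun z e hz => ⟨?_, ?_⟩⟩
  · unfold cnt
    rw [Nat.cast_ne_zero, ← Nat.pos_iff_ne_zero, Set.ncard_pos (fin g c w)]
    exact Iff.rfl
  · exact dom g z e _ (fun U hU => Or.inl hU) hz
  · exact dom g z e _ (fun U hU => Or.inr hU) hz

end Pool.Agent.Helper37.SK
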